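import Mathlib

/-!
PROJECT PK (MP_967f73_nt): every even N >= 4 is a prime plus a number with at most 17 prime factors.
Common definitions.
-/

set_option autoImplicit false

namespace Pool.Agent.H91.PK

open Finset

/-- The weight `t (1-t)^2` on `[0,1]`. -/
noncomputable def om (t : ℝ) : ℝ := if 0 ≤ t ∧ t ≤ 1 then t * (1 - t) ^ 2 else 0

/-- The primitive characters modulo `r`. -/
noncomputable def Pch (r : ℕ) : Finset (DirichletCharacter ℂ r) :=
  open Classical in univ.filter (fun χ => χ.IsPrimitive)

/-- The non-principal characters modulo `d`. -/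
noncomputable def Nch (d : ℕ) : Finset (DirichletCharacter ℂ d) :=
  open Classical in univ.filter (fun χ => χ ≠ 1)

theorem mem_Nch {d : ℕ} {χ : DirichletCharacter ℂ d} : χ ∈ Nch d ↔ χ ≠ 1 := by
  unfold Nch; simp

/-- `e(t) = exp(2 π i t)` -/
noncomputable def ee (t : ℝ) : ℂ := Complex.exp (2 * Real.pi * t * Complex.I)

/-- Fourier kernel of the weight. -/
noncomputable def KK (β t : ℝ) : ℂ :=
  2 / (((β : ℂ) + 1 + t * Complex.I) * ((β : ℂ) + 2 + t * Complex.I) * ((β : ℂ) + 3 + t * Complex.I))

end Pool.Agent.H91.PK
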